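import Mathlib
import Pool.Agent.LibGC45.F4

set_option autoImplicit false

namespace Pool.Agent.Results.MP_b44c39_an.ClassOneComplete

open GermDist46

/-- **Complete answer for `r = 1`.** An element `g` of the group `G^1` of germs at `0` of `C^1`
diffeomorphisms of the line fixing `0`, represented by the function `f`, is a distortion element
of `G^1` if and only if `|f'(0)| = 1`. -/
theorem result (g : GermGroup 1) (f : ℝ → ℝ) (hf : Represents g f) :
    IsDistortionElement g ↔ |deriv f 0| = 1 :=
  GC45.main g f hf

end Pool.Agent.Results.MP_b44c39_an.ClassOneComplete
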