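import Pool.Agent.LibFG40.G6
import Pool.Agent.LibFG40.R3
import Pool.Agent.LibCHr11.ChainR

/-!
# MP_b44c39_an: flat smooth germs are distortion elements of `G^r` for every integer `r ≥ 1`
-/

open Filter Topology Set

namespace Pool.Agent.Results.MP_b44c39_an.FlatSmooth

open GermDist46

/-- For every integer `r ≥ 1`, every element of `G^r` represented by a function `f` of class `C^∞` near `0` such
that `f ∘ f` is infinitely tangent to the identity at `0` is a distortion element of `G^r`. -/
theorem result (r : ℕ) (hr : 1 ≤ r) (g : GermGroup r) (f : ℝ → ℝ)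
    (hf : ∀ᶠ x in 𝓝 (0 : ℝ), ContDiffAt ℝ ((⊤ : ℕ∞) : WithTop ℕ∞) f x) (hg : Represents g f)
    (h : ∀ k : ℕ, iteratedDeriv k (f ∘ f) 0 = iteratedDeriv k (fun x : ℝ => x) 0) :
    IsDistortionElement g :=
  (FG40.final fun r hr φ hφ f hf g hg => FG40.one_sided r hr (FG40.chainHyp r hr) φ hφ f hf g hg).1
    r hr g f hf hg h

end Pool.Agent.Results.MP_b44c39_an.FlatSmooth
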