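import Pool.Agent.LibFG40.G6
import Pool.Agent.LibFG40.R3
import Pool.Agent.LibCHr11.ChainR

/-!
# MP_b44c39_an: the distortion elements of `G²` among the smooth germs
-/

open Filter Topology Set

namespace Pool.Agent.Results.MP_b44c39_an.SmoothC2

open GermDist46

/-- An element of `G²` represented by a function `f` of class `C^∞` near `0` is a distortion element of `G²` if and
only if `|f' 0| = 1`; the same if `f` is only `C^∞` at `0` (of class `C^n` near `0` for every `n`) and some derivative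
of `f ∘ f` at `0` is not that of `x`, or `f ∘ f` is the identity near `0`. -/
theorem result (g : GermGroup 2) (f : ℝ → ℝ) (hf : ContDiffAt ℝ ((⊤ : ℕ∞) : WithTop ℕ∞) f 0)
    (hg : Represents g f)
    (h : (∀ᶠ x in 𝓝 (0 : ℝ), ContDiffAt ℝ ((⊤ : ℕ∞) : WithTop ℕ∞) f x) ∨
      (∃ k : ℕ, iteratedDeriv k (f ∘ f) 0 ≠ iteratedDeriv k (fun x : ℝ => x) 0) ∨
      ∀ᶠ x in 𝓝 (0 : ℝ), f (f x) = x) :
    IsDistortionElement g ↔ |deriv f 0| = 1 :=
  (FG40.final fun r hr φ hφ f hf g hg => FG40.one_sided r hr (FG40.chainHyp r hr) φ hφ f hf g hg).2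
    g f hf hg h

end Pool.Agent.Results.MP_b44c39_an.SmoothC2
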