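import Mathlib
import Pool.Agent.LibGermDist46.Example

set_option autoImplicit false

open Filter Topology Asymptotics Polynomial

namespace Pool.Agent.Results.MP_b44c39_an.TorsionCriterion

open GermDist46

/-- **(a)** For an integer `r ≥ 2`, a germ `g = [f]` with `g'(0) = 1` that is a distortion element
of the group `G^r` of germs of `C^r` diffeomorphisms satisfies a nontrivial relation
`∑ n_l l⁻¹ f(l x) = p(x) + O(x^(r+1))` with nonzero integers `n_l`, distinct `l > 0` and a
polynomial `p`.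
**(b)** For an integer `r ≥ 2`, a `C^(r+1)` germ `q` at `0` with `q(0) = 0`, `q'(0) = 1` and
`c ≠ 0`, the function `q(x) + c x^r / log |x|` represents an element of `G^r` tangent to the
identity, which is not a distortion element of `G^r`. -/
theorem result :
    (∀ (r : ℕ), 2 ≤ r → ∀ (g : GermGroup r) (f : ℝ → ℝ), Represents g f → deriv f 0 = 1 →
      IsDistortionElement g →
      ∃ (s : Finset ℝ) (n : ℝ → ℤ) (p : ℝ[X]), s.Nonempty ∧ (∀ l ∈ s, 0 < l ∧ n l ≠ 0) ∧
        (fun x => ∑ l ∈ s, (n l : ℝ) * (l⁻¹ * f (l * x)) - p.eval x) =O[𝓝 0]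
          fun x : ℝ => x ^ (r + 1)) ∧
    (∀ (r : ℕ), 2 ≤ r → ∀ (q : ℝ → ℝ), ContDiffAt ℝ (r + 1 : ℕ) q 0 → q 0 = 0 → deriv q 0 = 1 →
      ∀ (c : ℝ), c ≠ 0 →
      (∃ g : GermGroup r, Represents g (fun x => q x + c * (x ^ r / Real.log |x|))) ∧
      deriv (fun x => q x + c * (x ^ r / Real.log |x|)) 0 = 1 ∧
      ∀ g : GermGroup r, Represents g (fun x => q x + c * (x ^ r / Real.log |x|)) →
        ¬ IsDistortionElement g) :=
  ⟨fun _ hr _ _ hg hf hd => relation_of_distortion hr hg hf hd,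
    fun _ hr _ hq q0 q1 _ hc => not_distortion hr hq q0 q1 hc⟩

end Pool.Agent.Results.MP_b44c39_an.TorsionCriterion
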